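import Mathlib
import Pool.Agent.H11.Mst2

namespace Pool.Agent.Results.MP_3865e9_co.Large

open Matrix Complex

open Classical in
/-- The skew adjacency matrix of the oriented graph with arc relation `Arc`. -/
noncomputable def skew {V : Type} (Arc : V → V → Prop) : Matrix V V ℂ :=
  fun a b => if Arc a b then 1 else if Arc b a then -1 else 0

/-- The transition matrix `U(t) = exp(i t M)` with `M = i S`. -/
noncomputable def U {V : Type} [Fintype V] [DecidableEq V] (Arc : V → V → Prop) (t : ℝ) :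
    Matrix V V ℂ := NormedSpace.exp ((I * t) • (I • skew Arc))

/-- Perfect state transfer from `a` to `b` at some time. -/
def PST {V : Type} [Fintype V] [DecidableEq V] (Arc : V → V → Prop) (a b : V) : Prop :=
  ∃ (t : ℝ) (α : ℂ), U Arc t *ᵥ Pi.single a 1 = α • Pi.single b 1

theorem result : ∀ m : ℕ, ∃ (V : Type) (_ : Fintype V) (_ : DecidableEq V)
    (Arc : V → V → Prop), (∀ x y, Arc x y → ¬ Arc y x) ∧
      ∃ S : Finset V, S.card = m ∧ ∀ a ∈ S, ∀ b ∈ S, a ≠ b → PST Arc a b := by
  intro m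
  obtain ⟨V, i1, i2, Arc, vtx, asym, inj, h, -⟩ := Pool.Agent.H11.Mst2.main2 m
  refine ⟨V, i1, i2, Arc, asym, Finset.univ.image vtx,
    by rw [Finset.card_image_of_injective _ inj]; simp, ?_⟩
  intro a ha b hb _
  obtain ⟨p, -, rfl⟩ := Finset.mem_image.1 ha
  obtain ⟨q, -, rfl⟩ := Finset.mem_image.1 hb
  obtain ⟨τ, e⟩ := h p q
  refine ⟨-τ, 1, ?_⟩
  have : I * ((-τ : ℝ) : ℂ) * I = τ := by push_cast; linear_combination (-τ : ℂ) * I_mul_I
  rw [U, smul_smul, this, one_smul]
  exact e

end Pool.Agent.Results.MP_3865e9_co.Large
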